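import Pool.Agent.Y122.PC.Sum

set_option autoImplicit false

/-!
The counting functions and the theorems for one level and for pairs of levels.
-/

namespace Pool.Agent.Y122.PC

open Finset Filter Topology MeasureTheory
open Pool.Agent.H305R2 (ff ff_nonneg ff_le_one measurable_ff bounds integrableOn_ff roughPart)

/-- windows of arbitrary length -/
lemma Av_tendsto' {l : ℝ} (hl : 0 < l) {x : ℝ} (hx : 0 < x) (y : ℝ) :
    Tendsto (fun p : ℕ => Av p l (p * x + y) * (p / Real.log p)) atTop (𝓝 (eg / x)) := by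
  set N := ⌈l⌉₊ with hN
  have hN0 : 0 < N := Nat.ceil_pos.2 hl
  have hN0' : (0 : ℝ) < N := by exact_mod_cast hN0
  have hl' : 0 < l / N := by positivity
  have hl1 : l / N ≤ 1 := (div_le_one hN0').2 (Nat.le_ceil l)
  have hdec : ∀ (p : ℕ) (s : ℝ), Av p l s = (∑ i ∈ Finset.range N, Av p (l / N) (s + i * (l / N))) / N := by
    intro p s
    have h := intervalIntegral.sum_integral_adjacent_intervals (f := ff p) (μ := volume)
      (a := fun i : ℕ => s + i * (l / N)) (n := N) (fun k _ => by
        rw [intervalIntegrable_iff_integrableOn_Ioc_of_le (by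
          push_cast
          linarith)]
        exact integrableOn_ff p _ _)
    rw [Av_eq p hl, ← intervalIntegral.integral_of_le (by linarith)]
    have e : s + (N : ℝ) * (l / N) = s + l := by field_simp
    simp only [Nat.cast_zero, zero_mul, add_zero, e] at h
    rw [← h]
    have h2 : ∀ i ∈ Finset.range N, ∫ x in (s + i * (l / N))..(s + ((i + 1 : ℕ) : ℝ) * (l / N)), ff p x =
        Av p (l / N) (s + i * (l / N)) * (l / N) := by
      intro i _
      rw [Av_eq p hl', div_mul_cancel₀ _ hl'.ne', intervalIntegral.integral_of_le (by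
        push_cast; linarith)]
      congr 3
      push_cast
      ring
    rw [Finset.sum_congr rfl h2, ← Finset.sum_mul]
    field_simp
  have h1 : Tendsto (fun p : ℕ => (∑ i ∈ Finset.range N,
      Av p (l / N) (p * x + (y + i * (l / N))) * (p / Real.log p)) / N) atTop
      (𝓝 ((∑ _i ∈ Finset.range N, eg / x) / N)) :=
    (tendsto_finsetSum _ fun i _ => Av_tendsto hl' hl1 hx _).div_const _
  have e1 : (∑ _i ∈ Finset.range N, eg / x) / N = eg / x := by
    rw [Finset.sum_const, Finset.card_range, nsmul_eq_mul]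
    field_simp
  rw [e1] at h1
  refine h1.congr fun p => ?_
  rw [hdec, ← Finset.sum_mul]
  simp only [add_assoc]
  ring

/-- iterated integrals -/
lemma iter {x0 x1 y0 y1 : ℝ} (hx : x0 ≤ x1) (hy : y0 ≤ y1) {f : ℝ × ℝ → ℝ} (hf : Measurable f)
    (h0 : ∀ z, 0 ≤ f z) {C : ℝ} (h1 : ∀ z, f z ≤ C) :
    ∫ x in x0..x1, ∫ y in y0..y1, f (x, y) = ∫ z in Bx x0 x1 y0 y1, f z := by
  rw [intervalIntegral.integral_of_le hx]
  have h2 : ∀ x : ℝ, ∫ y in y0..y1, f (x, y) = ∫ y in Set.Ioc y0 y1, f (x, y) := fun x =>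
    intervalIntegral.integral_of_le hy
  simp only [h2]
  unfold Bx
  rw [Measure.volume_eq_prod, setIntegral_prod]
  have hi : IntegrableOn f (Bx x0 x1 y0 y1) volume := integrable_of_bdd hf h0 h1
  exact hi

lemma mean_level {x0 x1 y0 y1 : ℝ} (hx0 : 0 < x0) (hx : x0 < x1) (hy : y0 < y1) :
    Tendsto (fun p : ℕ => (∫ z in Bx x0 x1 y0 y1, ff p (p * z.1 + z.2)) * (p / Real.log p)) atTop
      (𝓝 (eg * Real.log (x1 / x0) * (y1 - y0))) := by
  have hL : 0 < y1 - y0 := by linarith
  have e1 : ∀ p : ℕ, ∫ z in Bx x0 x1 y0 y1, ff p (p * z.1 + z.2) =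
      ∫ x in Set.Ioc x0 x1, Av p (y1 - y0) (p * x + y0) * (y1 - y0) := by
    intro p
    rw [← iter hx.le hy.le (f := fun z : ℝ × ℝ => ff p (p * z.1 + z.2)) (C := 1)
      ((measurable_ff p).comp (by fun_prop)) (fun z => ff_nonneg _ _) (fun z => ff_le_one _ _),
      intervalIntegral.integral_of_le hx.le]
    refine integral_congr_ae (Eventually.of_forall fun x => ?_)
    simp only
    rw [Av_eq p hL, div_mul_cancel₀ _ hL.ne', ← intervalIntegral.integral_of_le (by linarith),
      intervalIntegral.integral_comp_add_left (fun t => ff p t) (p * x)]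
    congr 1
    ring
  obtain ⟨K, hK, hev⟩ := Av_bound (c := x0 / 2) (by positivity)
  have key : Tendsto (fun p : ℕ => ∫ x in Set.Ioc x0 x1,
      (Av p (y1 - y0) (p * x + y0) * (p / Real.log p)) * (y1 - y0)) atTop
      (𝓝 (∫ x in Set.Ioc x0 x1, (eg / x) * (y1 - y0))) := by
    refine tendsto_integral_filter_of_dominated_convergence
      (fun _ => (K * (1 + 1 / (y1 - y0))) * (y1 - y0)) ?_ ?_ ?_ ?_
    · refine Eventually.of_forall fun p => Measurable.aestronglyMeasurable ?_
      exact (((measurable_Av _).comp (by fun_prop)).mul_const _).mul_const _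
    · have h : ∀ᶠ p : ℕ in atTop, (1 - y0) / (x0 / 2) < p :=
        tendsto_natCast_atTop_atTop.eventually_gt_atTop _
      filter_upwards [hev, h, eventually_gt_atTop 2] with p h1 h2 h3
      filter_upwards [ae_restrict_mem measurableSet_Ioc] with x hx'
      have hp0 : (2 : ℝ) < p := by exact_mod_cast h3
      have hlog : 0 < Real.log p := Real.log_pos (by linarith)
      rw [div_lt_iff₀ (by positivity)] at h2
      have h5 : (p : ℝ) * x0 ≤ p * x := mul_le_mul_of_nonneg_left hx'.1.le (Nat.cast_nonneg _)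
      have h4 := h1 (p * x + y0) (y1 - y0) hL (by linarith)
      rw [Real.norm_of_nonneg (mul_nonneg (mul_nonneg (Av_nonneg p hL _) (by positivity)) hL.le)]
      refine mul_le_mul_of_nonneg_right ?_ hL.le
      calc Av p (y1 - y0) (p * x + y0) * (p / Real.log p) ≤
          K * (1 + 1 / ((y1 - y0) * p)) * (Real.log p / p) * (p / Real.log p) := by gcongr
        _ = K * (1 + 1 / ((y1 - y0) * p)) := by field_simp
        _ ≤ K * (1 + 1 / (y1 - y0)) := by
          have : (y1 - y0) * 1 ≤ (y1 - y0) * p := mul_le_mul_of_nonneg_left (by linarith) hL.le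
          rw [mul_one] at this
          gcongr
    · exact integrable_const _
    · filter_upwards [ae_restrict_mem measurableSet_Ioc] with x hx'
      exact (Av_tendsto' hL (hx0.trans hx'.1) y0).mul_const _
  have e2 : ∫ x in Set.Ioc x0 x1, (eg / x) * (y1 - y0) = eg * Real.log (x1 / x0) * (y1 - y0) := by
    rw [← intervalIntegral.integral_of_le hx.le, intervalIntegral.integral_mul_const]
    congr 1
    have : ∫ x in x0..x1, eg / x = ∫ x in x0..x1, eg * x⁻¹ :=
      intervalIntegral.integral_congr fun x _ => div_eq_mul_inv _ _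
    rw [this, intervalIntegral.integral_const_mul, integral_inv_of_pos hx0 (hx0.trans hx)]
  rw [e2] at key
  refine key.congr fun p => ?_
  rw [e1, ← integral_mul_const]
  refine integral_congr_ae (Eventually.of_forall fun x => ?_)
  simp only
  ring

/-- the sum of the means of the levels -/
theorem sum_levels {x0 x1 y0 y1 : ℝ} (hx0 : 0 < x0) (hx : x0 < x1) (hy : y0 < y1) {a b : ℝ}
    (ha : 0 < a) (hab : a < b) :
    Tendsto (fun z : ℝ => ∑ p ∈ Pr (a * z) (b * z), ∫ r in Bx x0 x1 y0 y1, ff p (p * r.1 + r.2)) atTop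
      (𝓝 (eg * Real.log (x1 / x0) * (y1 - y0) * Real.log (b / a))) := by
  have hb : 0 < b := ha.trans hab
  have m1 := mertens ha hab
  set l1 := Real.log (b / a) with hl1
  have hl1' : 0 < l1 := Real.log_pos ((one_lt_div ha).2 hab)
  set M := eg * Real.log (x1 / x0) * (y1 - y0) with hM
  have hmain : Tendsto (fun z : ℝ => M * (∑ p ∈ Pr (a * z) (b * z), w p)) atTop (𝓝 (M * l1)) :=
    m1.const_mul M
  have hdiff : Tendsto (fun z : ℝ => (∑ p ∈ Pr (a * z) (b * z),
      ∫ r in Bx x0 x1 y0 y1, ff p (p * r.1 + r.2)) - M * (∑ p ∈ Pr (a * z) (b * z), w p)) atTop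
      (𝓝 0) := by
    rw [Metric.tendsto_nhds]
    intro ε' hε'
    simp only [Real.dist_eq, sub_zero]
    set ε := ε' / (2 * (l1 + 1)) with hε
    have hε0 : 0 < ε := by positivity
    have h1 := (Metric.tendsto_nhds.1 (mean_level hx0 hx hy)) ε hε0
    obtain ⟨N, hN⟩ := eventually_atTop.1 h1
    filter_upwards [m1.eventually_lt_const (show l1 < l1 + 1 by linarith),
      (tendsto_id.const_mul_atTop ha).eventually_gt_atTop (max (N : ℝ) 3),
      eventually_gt_atTop 0] with z s1 g1 hz
    simp only [id] at g1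
    rw [Finset.mul_sum, ← Finset.sum_sub_distrib]
    calc |∑ p ∈ Pr (a * z) (b * z), ((∫ r in Bx x0 x1 y0 y1, ff p (p * r.1 + r.2)) - M * w p)| ≤
        ∑ p ∈ Pr (a * z) (b * z), |(∫ r in Bx x0 x1 y0 y1, ff p (p * r.1 + r.2)) - M * w p| :=
          Finset.abs_sum_le_sum_abs _ _
      _ ≤ ∑ p ∈ Pr (a * z) (b * z), ε * w p := by
          refine Finset.sum_le_sum fun p hp => ?_
          obtain ⟨_, h2, h3⟩ := (mem_Pr (by positivity) (by positivity)).1 hp
          have hpN : N ≤ p := by
            have : (N : ℝ) < p := ((le_max_left _ _).trans_lt g1).trans h2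
            exact_mod_cast this.le
          have hp3 : (3 : ℝ) < p := ((le_max_right _ _).trans_lt g1).trans h2
          have hlp : 0 < Real.log p := Real.log_pos (by linarith)
          have hwp : 0 < w p := by unfold w; positivity
          have h4 := hN p hpN
          rw [Real.dist_eq] at h4
          have e : (p : ℝ) / Real.log p = (w p)⁻¹ := by unfold w; field_simp
          rw [e] at h4
          have h5 : |(∫ r in Bx x0 x1 y0 y1, ff p (p * r.1 + r.2)) - M * w p| =
              |(∫ r in Bx x0 x1 y0 y1, ff p (p * r.1 + r.2)) * (w p)⁻¹ - M| * w p := by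
            rw [← abs_of_pos hwp, ← abs_mul, abs_of_pos hwp, sub_mul, inv_mul_cancel_right₀ hwp.ne']
          rw [h5]
          exact mul_le_mul_of_nonneg_right h4.le hwp.le
      _ = ε * ∑ p ∈ Pr (a * z) (b * z), w p := by rw [Finset.mul_sum]
      _ ≤ ε * (l1 + 1) := by gcongr
      _ = ε' / 2 := by rw [hε]; field_simp
      _ < ε' := by linarith
  have := hdiff.add hmain
  rw [zero_add] at this
  exact this.congr fun z => by ring

/-- the rough part of the largest integer below `exp (p x + y)` -/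
noncomputable def W (x y : ℝ) (p : ℕ) : ℕ := roughPart p (⌈Real.exp (p * x + y)⌉₊ - 1)

lemma ff_W (x y : ℝ) (p : ℕ) : ff p (p * x + y) = if (W x y p).Prime then 1 else 0 := rfl

/-- **The first moment.** -/
theorem first {x0 x1 y0 y1 : ℝ} (hx0 : 0 < x0) (hx : x0 < x1) (hy : y0 < y1) {a b : ℝ}
    (ha : 0 < a) (hab : a < b) :
    Tendsto (fun z : ℝ => ∫ x in x0..x1, ∫ y in y0..y1,
      (((Pr (a * z) (b * z)).filter (fun p => (W x y p).Prime)).card : ℝ)) atTop
      (𝓝 (eg * Real.log (x1 / x0) * (y1 - y0) * Real.log (b / a))) := by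
  refine (sum_levels hx0 hx hy ha hab).congr fun z => ?_
  have h : ∀ r : ℝ × ℝ, (((Pr (a * z) (b * z)).filter (fun p => (W r.1 r.2 p).Prime)).card : ℝ) =
      ∑ p ∈ Pr (a * z) (b * z), ff p (p * r.1 + r.2) := by
    intro r
    rw [Finset.card_filter]
    push_cast
    exact Finset.sum_congr rfl fun p _ => (ff_W _ _ _).symm
  have h2 := iter hx.le hy.le (f := fun r : ℝ × ℝ => ∑ p ∈ Pr (a * z) (b * z), ff p (p * r.1 + r.2))
    (C := ∑ _p ∈ Pr (a * z) (b * z), (1 : ℝ))
    (Finset.measurable_sum _ fun p _ => (measurable_ff p).comp (by fun_prop))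
    (fun r => Finset.sum_nonneg fun p _ => ff_nonneg _ _)
    (fun r => Finset.sum_le_sum fun p _ => ff_le_one _ _)
  have h3 : ∀ x y : ℝ, (((Pr (a * z) (b * z)).filter (fun p => (W x y p).Prime)).card : ℝ) =
      ∑ p ∈ Pr (a * z) (b * z), ff p (p * x + y) := fun x y => h (x, y)
  simp only [h3]
  rw [h2, integral_finsetSum]
  intro p _
  exact integrable_of_bdd ((measurable_ff p).comp (by fun_prop)) (fun _ => ff_nonneg _ _)
    (fun _ => ff_le_one _ _)

/-- **The two-point correlations.** -/
theorem second {x0 x1 y0 y1 : ℝ} (hx0 : 0 < x0) (hx : x0 < x1) (hy : y0 < y1) {a b c d : ℝ}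
    (ha : 0 < a) (hab : a < b) (hc : 0 < c) (hcd : c < d) :
    Tendsto (fun z : ℝ => ∫ x in x0..x1, ∫ y in y0..y1,
      (((Pr (a * z) (b * z) ×ˢ Pr (c * z) (d * z)).filter
        (fun r => r.1 ≠ r.2 ∧ (W x y r.1).Prime ∧ (W x y r.2).Prime)).card : ℝ)) atTop
      (𝓝 (T x0 x1 y0 y1 * (Real.log (b / a) * Real.log (d / c)))) := by
  refine (sum_pairs hx0 hx hy ha hab hc hcd).congr fun z => ?_
  have h3 : ∀ x y : ℝ, (((Pr (a * z) (b * z) ×ˢ Pr (c * z) (d * z)).filter
        (fun r => r.1 ≠ r.2 ∧ (W x y r.1).Prime ∧ (W x y r.2).Prime)).card : ℝ) =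
      ∑ r ∈ Pr (a * z) (b * z) ×ˢ Pr (c * z) (d * z), if r.1 ≠ r.2 then F r.1 r.2 (x, y) else 0 := by
    intro x y
    rw [Finset.card_filter]
    push_cast
    refine Finset.sum_congr rfl fun r _ => ?_
    unfold F
    rw [ff_W, ff_W]
    by_cases h1 : r.1 = r.2 <;> by_cases h2 : (W x y r.1).Prime <;> by_cases h3 : (W x y r.2).Prime <;>
      simp [h1, h2, h3]
  have h2 := iter hx.le hy.le (f := fun v : ℝ × ℝ => ∑ r ∈ Pr (a * z) (b * z) ×ˢ Pr (c * z) (d * z),
      if r.1 ≠ r.2 then F r.1 r.2 v else 0)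
    (C := ∑ _r ∈ Pr (a * z) (b * z) ×ˢ Pr (c * z) (d * z), (1 : ℝ))
    (Finset.measurable_sum _ fun r _ => by
      by_cases h : r.1 ≠ r.2
      · simp only [if_pos h]; exact measurable_F _ _
      · simp only [if_neg h]; exact measurable_const)
    (fun v => Finset.sum_nonneg fun r _ => by split_ifs; exacts [F_nonneg _ _ _, le_rfl])
    (fun v => Finset.sum_le_sum fun r _ => by split_ifs; exacts [F_le_one _ _ _, zero_le_one])
  simp only [h3]
  rw [h2, integral_finsetSum, Finset.sum_product]
  · refine Finset.sum_congr rfl fun p _ => Finset.sum_congr rfl fun q _ => ?_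
    simp only
    split_ifs with h
    · rfl
    · simp
  · intro r _
    by_cases h : r.1 ≠ r.2
    · simp only [if_pos h]
      exact integrable_of_bdd (measurable_F _ _) (F_nonneg _ _) (F_le_one _ _)
    · simp only [if_neg h]
      exact integrable_zero _ _ _

end Pool.Agent.Y122.PC
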