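import Pool.Agent.Y122.PC.Shift

set_option autoImplicit false

/-!
The correlation of two levels, asymptotically and as an upper bound.
-/

namespace Pool.Agent.Y122.PC

open Finset Filter Topology MeasureTheory
open Pool.Agent.H305R2 (ff ff_nonneg ff_le_one measurable_ff bounds integrableOn_ff)

/-- `e ^ γ` -/
noncomputable def eg : ℝ := Real.exp Real.eulerMascheroniConstant

lemma eg_pos : 0 < eg := Real.exp_pos _

lemma Av_eq (p : ℕ) {l : ℝ} (hl : 0 < l) (s : ℝ) :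
    Av p l s = (∫ t in Set.Ioc s (s + l), ff p t) / l := by
  unfold Av
  rw [← intervalIntegral.integral_of_le hl.le, ← intervalIntegral.integral_of_le (by linarith),
    intervalIntegral.integral_comp_add_left (fun t => ff p t) s, add_zero]

lemma Av_nonneg (p : ℕ) {l : ℝ} (hl : 0 < l) (s : ℝ) : 0 ≤ Av p l s := by
  unfold Av
  exact div_nonneg (integral_nonneg fun t => ff_nonneg _ _) hl.le

lemma measurable_Av (p : ℕ) {l : ℝ} : Measurable (Av p l) := by
  unfold Av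
  refine Measurable.div_const ?_ _
  have h : StronglyMeasurable (fun r : ℝ × ℝ => ff p (r.1 + r.2)) :=
    ((measurable_ff p).comp (by fun_prop)).stronglyMeasurable
  exact (h.integral_prod_right' (ν := volume.restrict (Set.Ioc 0 l))).measurable

lemma Av_bound {c : ℝ} (hc : 0 < c) : ∃ K : ℝ, 0 < K ∧ ∀ᶠ p : ℕ in atTop, ∀ s l : ℝ, 0 < l →
    c * p + 1 ≤ s → Av p l s ≤ K * (1 + 1 / (l * p)) * (Real.log p / p) := by
  obtain ⟨K, hK, hev⟩ := bounds hc
  refine ⟨K, hK, ?_⟩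
  filter_upwards [hev, eventually_gt_atTop 0] with p hp hp0 s l hl hs
  have hp0' : (0 : ℝ) < p := by exact_mod_cast hp0
  rw [Av_eq p hl]
  have h := hp.2.1 s (s + l) hs (by linarith)
  rw [div_le_iff₀ hl]
  refine h.trans (le_of_eq ?_)
  rw [show s + l - s = l by ring]
  field_simp

lemma Av_tendsto {l : ℝ} (hl : 0 < l) (hl1 : l ≤ 1) {x : ℝ} (hx : 0 < x) (y : ℝ) :
    Tendsto (fun p : ℕ => Av p l (p * x + y) * (p / Real.log p)) atTop (𝓝 (eg / x)) := by
  have h1 : Tendsto (fun p : ℕ => (p * x + y) / (p : ℝ)) atTop (𝓝 x) := by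
    have h2 : Tendsto (fun p : ℕ => x + y / (p : ℝ)) atTop (𝓝 (x + 0)) :=
      tendsto_const_nhds.add (tendsto_const_nhds.div_atTop tendsto_natCast_atTop_atTop)
    rw [add_zero] at h2
    refine h2.congr' ?_
    filter_upwards [eventually_gt_atTop 0] with p hp
    have hp0' : (0 : ℝ) < p := by exact_mod_cast hp
    field_simp
  have h3 := (Pool.Agent.H447R2.ML.window_asymp_l hx hl hl1 h1).div_const l
  have e : Real.exp Real.eulerMascheroniConstant * l / x / l = eg / x := by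
    unfold eg; field_simp
  rw [e] at h3
  refine h3.congr fun p => ?_
  rw [Av_eq p hl]
  ring

/-- a box -/
def Bx (x0 x1 y0 y1 : ℝ) : Set (ℝ × ℝ) := Set.Ioc x0 x1 ×ˢ Set.Ioc y0 y1

lemma measurable_Bx (x0 x1 y0 y1 : ℝ) : MeasurableSet (Bx x0 x1 y0 y1) :=
  measurableSet_Ioc.prod measurableSet_Ioc

lemma vol_Bx (x0 x1 y0 y1 : ℝ) : volume (Bx x0 x1 y0 y1) ≠ ⊤ := by
  unfold Bx
  rw [Measure.volume_eq_prod, Measure.prod_prod]
  exact (ENNReal.mul_lt_top (by simp) (by simp)).ne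

instance (x0 x1 y0 y1 : ℝ) : IsFiniteMeasure ((volume : Measure (ℝ × ℝ)).restrict (Bx x0 x1 y0 y1)) :=
  ⟨by rw [Measure.restrict_apply_univ]; exact lt_top_iff_ne_top.2 (vol_Bx _ _ _ _)⟩

lemma measurable_G (p q : ℕ) (l : ℝ) : Measurable (G p q l) := by
  unfold G
  exact ((measurable_Av p).comp (by fun_prop)).mul ((measurable_Av q).comp (by fun_prop))

/-- large arguments on the box -/
lemma arg_large {x0 : ℝ} (hx0 : 0 < x0) (x1 y0 y1 : ℝ) : ∀ᶠ p : ℕ in atTop,
    ∀ z ∈ Bx x0 x1 y0 y1, x0 / 2 * p + 1 ≤ p * z.1 + z.2 := by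
  have h : ∀ᶠ p : ℕ in atTop, (1 - y0) / (x0 / 2) < p :=
    tendsto_natCast_atTop_atTop.eventually_gt_atTop _
  filter_upwards [h] with p hp z hz
  obtain ⟨⟨h1, _⟩, h3, _⟩ := hz
  rw [div_lt_iff₀ (by positivity)] at hp
  have h4 : (p : ℝ) * x0 ≤ p * z.1 := mul_le_mul_of_nonneg_left h1.le (Nat.cast_nonneg _)
  linarith

/-- **The product of the window means.** -/
lemma J_tendsto {l : ℝ} (hl : 0 < l) (hl1 : l ≤ 1) {x0 : ℝ} (hx0 : 0 < x0) (x1 y0 y1 : ℝ) :
    Tendsto (fun r : ℕ × ℕ => (∫ z in Bx x0 x1 y0 y1, G r.1 r.2 l z) *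
      ((r.1 / Real.log r.1) * (r.2 / Real.log r.2))) (atTop ×ˢ atTop)
      (𝓝 (∫ z in Bx x0 x1 y0 y1, (eg / z.1) * (eg / z.1))) := by
  obtain ⟨K, hK, hev⟩ := Av_bound (c := x0 / 2) (by positivity)
  have hone : ∀ᶠ p : ℕ in atTop, ∀ z ∈ Bx x0 x1 y0 y1,
      0 ≤ Av p l (p * z.1 + z.2) * (p / Real.log p) ∧
      Av p l (p * z.1 + z.2) * (p / Real.log p) ≤ K * (1 + 1 / l) := by
    filter_upwards [hev, arg_large hx0 x1 y0 y1, eventually_gt_atTop 2] with p h1 h2 h3 z hz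
    have hp0 : (2 : ℝ) < p := by exact_mod_cast h3
    have hlog : 0 < Real.log p := Real.log_pos (by linarith)
    refine ⟨mul_nonneg (Av_nonneg p hl _) (by positivity), ?_⟩
    have h4 := h1 (p * z.1 + z.2) l hl (h2 z hz)
    calc Av p l (p * z.1 + z.2) * (p / Real.log p) ≤
        K * (1 + 1 / (l * p)) * (Real.log p / p) * (p / Real.log p) := by gcongr
      _ = K * (1 + 1 / (l * p)) := by field_simp
      _ ≤ K * (1 + 1 / l) := by
        have : l * 1 ≤ l * p := mul_le_mul_of_nonneg_left (by linarith) hl.le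
        rw [mul_one] at this
        gcongr
  have key : Tendsto (fun r : ℕ × ℕ => ∫ z in Bx x0 x1 y0 y1,
      (Av r.1 l (r.1 * z.1 + z.2) * (r.1 / Real.log r.1)) *
      (Av r.2 l (r.2 * z.1 + z.2) * (r.2 / Real.log r.2))) (atTop ×ˢ atTop)
      (𝓝 (∫ z in Bx x0 x1 y0 y1, (eg / z.1) * (eg / z.1))) := by
    refine tendsto_integral_filter_of_dominated_convergence
      (fun _ => (K * (1 + 1 / l)) * (K * (1 + 1 / l))) ?_ ?_ ?_ ?_
    · refine Eventually.of_forall fun r => Measurable.aestronglyMeasurable ?_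
      exact (((measurable_Av _).comp (by fun_prop)).mul_const _).mul
        (((measurable_Av _).comp (by fun_prop)).mul_const _)
    · filter_upwards [hone.prod_mk hone] with r hr
      filter_upwards [ae_restrict_mem (measurable_Bx x0 x1 y0 y1)] with z hz
      obtain ⟨a1, a2⟩ := hr.1 z hz
      obtain ⟨b1, b2⟩ := hr.2 z hz
      rw [Real.norm_of_nonneg (mul_nonneg a1 b1)]
      exact mul_le_mul a2 b2 b1 (a1.trans a2)
    · exact integrable_const _
    · filter_upwards [ae_restrict_mem (measurable_Bx x0 x1 y0 y1)] with z hz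
      have hz1 : 0 < z.1 := hx0.trans hz.1.1
      exact ((Av_tendsto hl hl1 hz1 z.2).comp tendsto_fst).mul
        ((Av_tendsto hl hl1 hz1 z.2).comp tendsto_snd)
  refine key.congr fun r => ?_
  rw [← integral_mul_const]
  refine integral_congr_ae (Eventually.of_forall fun z => ?_)
  simp only [G]
  ring

/-- the constant -/
noncomputable def T (x0 x1 y0 y1 : ℝ) : ℝ := eg ^ 2 * (1 / x0 - 1 / x1) * (y1 - y0)

lemma int_T {x0 x1 y0 y1 : ℝ} (hx0 : 0 < x0) (hx : x0 ≤ x1) (hy : y0 ≤ y1) :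
    ∫ z in Bx x0 x1 y0 y1, (eg / z.1) * (eg / z.1) = T x0 x1 y0 y1 := by
  have h := setIntegral_prod_mul (μ := (volume : Measure ℝ)) (ν := (volume : Measure ℝ))
      (fun x : ℝ => (eg / x) * (eg / x)) (fun _ => (1 : ℝ)) (Set.Ioc x0 x1) (Set.Ioc y0 y1)
  simp only [mul_one] at h
  unfold Bx
  rw [Measure.volume_eq_prod, h]
  have h2 : ∫ _y in Set.Ioc y0 y1, (1 : ℝ) = y1 - y0 := by
    simp [Measure.real, hy]
  have h3 : ∫ x in Set.Ioc x0 x1, (eg / x) * (eg / x) = eg ^ 2 * (1 / x0 - 1 / x1) := by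
    rw [← intervalIntegral.integral_of_le hx]
    have h4 : ∫ x in x0..x1, (eg / x) * (eg / x) = ∫ x in x0..x1, eg ^ 2 * x ^ (-2 : ℤ) := by
      refine intervalIntegral.integral_congr fun x _ => ?_
      have e : x ^ (-2 : ℤ) = (x * x)⁻¹ := by
        rw [zpow_neg, show ((2 : ℤ)) = ((2 : ℕ) : ℤ) from rfl, zpow_natCast, pow_two]
      rw [e, div_mul_div_comm, div_eq_mul_inv, pow_two]
    rw [h4, intervalIntegral.integral_const_mul, integral_zpow]
    · have e1 : ((-2 : ℤ) + 1) = -1 := by norm_num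
      have e2 : (((-2 : ℤ) : ℝ) + 1) = -1 := by norm_num
      rw [e1, e2, zpow_neg_one, zpow_neg_one]
      ring
    · right
      refine ⟨by norm_num, ?_⟩
      rw [Set.uIcc_of_le hx]
      intro h5
      exact absurd h5.1 (not_le.2 hx0)
  rw [h2, h3]
  rfl

/-- the integral of the product of the indicators over a box -/
noncomputable def I (x0 x1 y0 y1 : ℝ) (p q : ℕ) : ℝ := ∫ z in Bx x0 x1 y0 y1, F p q z

lemma I_nonneg (x0 x1 y0 y1 : ℝ) (p q : ℕ) : 0 ≤ I x0 x1 y0 y1 p q :=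
  integral_nonneg fun _ => F_nonneg _ _ _

/-- **Correlation of two levels that are not close.** -/
theorem far {x0 x1 y0 y1 : ℝ} (hx0 : 0 < x0) (hx : x0 < x1) (hy : y0 < y1) {ε δ : ℝ} (hε : 0 < ε)
    (hδ : 0 < δ) : ∃ N : ℕ, ∀ p q : ℕ, N ≤ p → N ≤ q → δ * ((p : ℝ) + q) ≤ |(q : ℝ) - p| →
    |I x0 x1 y0 y1 p q * ((p / Real.log p) * (q / Real.log q)) - T x0 x1 y0 y1| ≤ ε := by
  -- the enlargement
  have hθ : ∃ θ : ℝ, 0 < θ ∧ θ < x0 ∧ x0 + θ < x1 - θ ∧ y0 + θ < y1 - θ ∧ θ < 1 ∧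
      T (x0 - θ) (x1 + θ) (y0 - θ) (y1 + θ) < T x0 x1 y0 y1 + ε / 2 ∧
      T x0 x1 y0 y1 - ε / 2 < T (x0 + θ) (x1 - θ) (y0 + θ) (y1 - θ) := by
    have hx1 : 0 < x1 := hx0.trans hx
    have c1 : ContinuousAt (fun θ : ℝ => T (x0 - θ) (x1 + θ) (y0 - θ) (y1 + θ)) 0 := by
      unfold T
      refine ContinuousAt.mul (ContinuousAt.mul continuousAt_const (ContinuousAt.sub
        (ContinuousAt.div continuousAt_const (by fun_prop) (by simp; exact hx0.ne'))
        (ContinuousAt.div continuousAt_const (by fun_prop) (by simp; exact hx1.ne')))) (by fun_prop)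
    have c2 : ContinuousAt (fun θ : ℝ => T (x0 + θ) (x1 - θ) (y0 + θ) (y1 - θ)) 0 := by
      unfold T
      refine ContinuousAt.mul (ContinuousAt.mul continuousAt_const (ContinuousAt.sub
        (ContinuousAt.div continuousAt_const (by fun_prop) (by simp; exact hx0.ne'))
        (ContinuousAt.div continuousAt_const (by fun_prop) (by simp; exact hx1.ne')))) (by fun_prop)
    have t1 := c1.tendsto.mono_left (nhdsWithin_le_nhds (s := Set.Ioi 0))
    have t2 := c2.tendsto.mono_left (nhdsWithin_le_nhds (s := Set.Ioi 0))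
    simp only [sub_zero, add_zero] at t1 t2
    have e1 := t1.eventually_lt_const (show T x0 x1 y0 y1 < T x0 x1 y0 y1 + ε / 2 by linarith)
    have e2 := t2.eventually_const_lt (show T x0 x1 y0 y1 - ε / 2 < T x0 x1 y0 y1 by linarith)
    have e3 : ∀ a : ℝ, 0 < a → ∀ᶠ θ : ℝ in 𝓝[>] 0, θ < a := fun a ha =>
      (eventually_lt_nhds ha).filter_mono nhdsWithin_le_nhds
    have e4 : ∀ᶠ θ : ℝ in 𝓝[>] 0, 0 < θ := self_mem_nhdsWithin
    obtain ⟨θ, a1, a2, a3, a4, a5, a6, a7⟩ := (e1.and (e2.and ((e3 x0 hx0).and ((e3 ((x1 - x0) / 2) (by linarith)).and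
      ((e3 ((y1 - y0) / 2) (by linarith)).and ((e3 1 one_pos).and e4)))))).exists
    exact ⟨θ, a7, a3, by linarith, by linarith, a6, a1, a2⟩
  obtain ⟨θ, hθ0, hθx, hθx', hθy, hθ1, hup, hlow⟩ := hθ
  -- the length of the windows
  obtain ⟨l, hl0, hl1, hlθ, hlδ⟩ : ∃ l : ℝ, 0 < l ∧ l ≤ 1 ∧ l ≤ θ ∧ l + l / δ ≤ θ := by
    refine ⟨θ * (δ / (1 + δ)), by positivity, ?_, ?_, ?_⟩
    · have : δ / (1 + δ) ≤ 1 := (div_le_one (by positivity)).2 (by linarith)
      nlinarith [div_nonneg hδ.le (show 0 ≤ 1 + δ by linarith)]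
    · have : δ / (1 + δ) ≤ 1 := (div_le_one (by positivity)).2 (by linarith)
      nlinarith [div_nonneg hδ.le (show 0 ≤ 1 + δ by linarith)]
    · apply le_of_eq
      field_simp
      ring
  have j1 := J_tendsto hl0 hl1 (x0 := x0 - θ) (by linarith) (x1 + θ) (y0 - θ) (y1 + θ)
  have j2 := J_tendsto hl0 hl1 (x0 := x0 + θ) (by linarith) (x1 - θ) (y0 + θ) (y1 - θ)
  rw [int_T (by linarith) (by linarith) (by linarith)] at j1 j2
  have k1 := j1.eventually_lt_const (show _ < T x0 x1 y0 y1 + ε by linarith)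
  have k2 := j2.eventually_const_lt (show T x0 x1 y0 y1 - ε < _ by linarith)
  rw [prod_atTop_atTop_eq] at k1 k2
  obtain ⟨⟨n1, n2⟩, hn⟩ := eventually_atTop.1 (k1.and k2)
  refine ⟨max (max n1 n2) 3, fun p q hp hq hpq => ?_⟩
  have hp1 : n1 ≤ p := ((le_max_left _ _).trans (le_max_left _ _)).trans hp
  have hq1 : n2 ≤ q := ((le_max_right _ _).trans (le_max_left _ _)).trans hq
  have hp3 : (3 : ℝ) ≤ p := by exact_mod_cast (le_max_right _ _).trans hp
  have hq3 : (3 : ℝ) ≤ q := by exact_mod_cast (le_max_right _ _).trans hq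
  obtain ⟨g1, g2⟩ := hn (p, q) (Prod.mk_le_mk.2 ⟨hp1, hq1⟩)
  have hh : 0 < |(q : ℝ) - p| := lt_of_lt_of_le (by positivity) hpq
  have hne : p ≠ q := by
    rintro rfl
    simp at hh
  have hW : 0 ≤ ((p : ℝ) / Real.log p) * (q / Real.log q) := by
    have a1 : 0 < Real.log p := Real.log_pos (by linarith)
    have a2 : 0 < Real.log q := Real.log_pos (by linarith)
    positivity
  have hh1 : 1 ≤ |(q : ℝ) - p| := by
    have : (1 : ℤ) ≤ |(q : ℤ) - p| := Int.one_le_abs (sub_ne_zero.2 (by exact_mod_cast hne.symm))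
    exact_mod_cast this
  have hξ : l ≤ l / |(q : ℝ) - p| * |(q : ℝ) - p| := le_of_eq (div_mul_cancel₀ _ hh.ne').symm
  have hξθ : l / |(q : ℝ) - p| ≤ θ := by
    rw [div_le_iff₀ hh]
    nlinarith
  have hη : l + p * (l / |(q : ℝ) - p|) ≤ θ := by
    have : p * (l / |(q : ℝ) - p|) ≤ l / δ := by
      rw [← mul_div_assoc, div_le_div_iff₀ hh hδ]
      have : (p : ℝ) * δ ≤ |(q : ℝ) - p| := by nlinarith
      nlinarith
    linarith
  have u1 := F_le hne hl0 hξ hη (measurable_Bx x0 x1 y0 y1)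
    (measurable_Bx (x0 - θ) (x1 + θ) (y0 - θ) (y1 + θ)) (vol_Bx _ _ _ _) (vol_Bx _ _ _ _)
    (by
      rintro z ⟨⟨a1, a2⟩, a3, a4⟩ v hv1 hv2
      have b1 := abs_le.1 hv1
      have b2 := abs_le.1 hv2
      refine ⟨⟨?_, ?_⟩, ?_, ?_⟩ <;> simp only [Prod.fst_add, Prod.snd_add] <;> linarith)
  have u2 := G_le hne hl0 hξ hη (measurable_Bx (x0 + θ) (x1 - θ) (y0 + θ) (y1 - θ))
    (measurable_Bx x0 x1 y0 y1) (vol_Bx _ _ _ _) (vol_Bx _ _ _ _)
    (by
      rintro z ⟨⟨a1, a2⟩, a3, a4⟩ v hv1 hv2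
      have b1 := abs_le.1 hv1
      have b2 := abs_le.1 hv2
      refine ⟨⟨?_, ?_⟩, ?_, ?_⟩ <;> simp only [Prod.fst_add, Prod.snd_add] <;> linarith)
  have v1 := mul_le_mul_of_nonneg_right u1 hW
  have v2 := mul_le_mul_of_nonneg_right u2 hW
  rw [abs_le]
  unfold I
  constructor <;> linarith

/-- **Upper bound for all pairs of different levels of bounded ratio.** -/
theorem near {x0 : ℝ} (x1 y0 y1 : ℝ) (hx0 : 0 < x0) {R : ℝ} (hR : 0 < R) :
    ∃ K : ℝ, 0 < K ∧ ∃ N : ℕ, ∀ p q : ℕ, N ≤ p → N ≤ q → p ≠ q → ((p : ℝ) + q) ≤ R * p →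
    ((p : ℝ) + q) ≤ R * q → I x0 x1 y0 y1 p q ≤ K * ((Real.log p / p) * (Real.log q / q)) := by
  obtain ⟨K, hK, hev⟩ := Av_bound (c := x0 / 2 / 2) (by positivity)
  set B := Bx (x0 / 2) (x1 + x0 / 2) (y0 - 2) (y1 + 2) with hB
  obtain ⟨N, hN⟩ := eventually_atTop.1 (hev.and ((arg_large (x0 := x0 / 2) (by positivity)
    (x1 + x0 / 2) (y0 - 2) (y1 + 2)).and
    ((tendsto_natCast_atTop_atTop (R := ℝ)).eventually_gt_atTop (2 / x0))))
  refine ⟨(volume : Measure (ℝ × ℝ)).real B * (K * (1 + R)) ^ 2 + 1, by positivity, max N 3,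
    fun p q hp hq hne h1 h2 => ?_⟩
  obtain ⟨bp, ap, sp⟩ := hN p ((le_max_left _ _).trans hp)
  obtain ⟨bq, aq, _⟩ := hN q ((le_max_left _ _).trans hq)
  have hp3 : (3 : ℝ) ≤ p := by exact_mod_cast (le_max_right _ _).trans hp
  have hq3 : (3 : ℝ) ≤ q := by exact_mod_cast (le_max_right _ _).trans hq
  have hlp : 0 < Real.log p := Real.log_pos (by linarith)
  have hlq : 0 < Real.log q := Real.log_pos (by linarith)
  have hh1 : 1 ≤ |(q : ℝ) - p| := by
    have : (1 : ℤ) ≤ |(q : ℤ) - p| := Int.one_le_abs (sub_ne_zero.2 (by exact_mod_cast hne.symm))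
    exact_mod_cast this
  have hh2 : |(q : ℝ) - p| ≤ p + q := by rw [abs_le]; constructor <;> linarith
  set l := |(q : ℝ) - p| / (p + q) with hl
  have hpq : (0 : ℝ) < p + q := by linarith
  have hl0 : 0 < l := by positivity
  have hl1 : l ≤ 1 := (div_le_one hpq).2 hh2
  have hξ : l ≤ 1 / ((p : ℝ) + q) * |(q : ℝ) - p| := le_of_eq (by rw [hl]; ring)
  have hη : l + p * (1 / ((p : ℝ) + q)) ≤ 2 := by
    have : p * (1 / ((p : ℝ) + q)) ≤ 1 := by
      rw [mul_one_div, div_le_one hpq]; linarith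
    linarith
  have hξx : 1 / ((p : ℝ) + q) ≤ x0 / 2 := by
    rw [div_le_div_iff₀ hpq (by norm_num)]
    rw [div_lt_iff₀ hx0] at sp
    nlinarith
  have u1 := F_le hne hl0 hξ hη (measurable_Bx x0 x1 y0 y1) (measurable_Bx (x0 / 2) (x1 + x0 / 2) (y0 - 2) (y1 + 2))
    (vol_Bx _ _ _ _) (vol_Bx _ _ _ _)
    (by
      rintro z ⟨⟨a1, a2⟩, a3, a4⟩ v hv1 hv2
      have b1 := abs_le.1 hv1
      have b2 := abs_le.1 hv2
      refine ⟨⟨?_, ?_⟩, ?_, ?_⟩ <;> simp only [Prod.fst_add, Prod.snd_add] <;> linarith)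
  have hb : ∀ z ∈ B, G p q l z ≤ (K * (1 + R)) ^ 2 * ((Real.log p / p) * (Real.log q / q)) := by
    intro z hz
    have c1 := bp (p * z.1 + z.2) l hl0 (ap z hz)
    have c2 := bq (q * z.1 + z.2) l hl0 (aq z hz)
    have d1 : 1 / (l * p) ≤ R := by
      rw [div_le_iff₀ (by positivity), hl]
      have : (p : ℝ) + q ≤ R * (|(q : ℝ) - p| * p) := by
        have : R * p ≤ R * (|(q : ℝ) - p| * p) := by
          have : 1 * (p : ℝ) ≤ |(q : ℝ) - p| * p := mul_le_mul_of_nonneg_right hh1 (by linarith)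
          rw [one_mul] at this
          exact mul_le_mul_of_nonneg_left this hR.le
        linarith
      rw [show R * (|(q : ℝ) - p| / (p + q) * p) = R * (|(q : ℝ) - p| * p) / (p + q) by ring,
        le_div_iff₀ hpq]
      linarith
    have d2 : 1 / (l * q) ≤ R := by
      rw [div_le_iff₀ (by positivity), hl]
      have : (p : ℝ) + q ≤ R * (|(q : ℝ) - p| * q) := by
        have : R * q ≤ R * (|(q : ℝ) - p| * q) := by
          have : 1 * (q : ℝ) ≤ |(q : ℝ) - p| * q := mul_le_mul_of_nonneg_right hh1 (by linarith)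
          rw [one_mul] at this
          exact mul_le_mul_of_nonneg_left this hR.le
        linarith
      rw [show R * (|(q : ℝ) - p| / (p + q) * q) = R * (|(q : ℝ) - p| * q) / (p + q) by ring,
        le_div_iff₀ hpq]
      linarith
    have e1 : Av p l (p * z.1 + z.2) ≤ K * (1 + R) * (Real.log p / p) := c1.trans (by gcongr)
    have e2 : Av q l (q * z.1 + z.2) ≤ K * (1 + R) * (Real.log q / q) := c2.trans (by gcongr)
    unfold G
    calc _ ≤ (K * (1 + R) * (Real.log p / p)) * (K * (1 + R) * (Real.log q / q)) :=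
          mul_le_mul e1 e2 (Av_nonneg _ hl0 _) (by positivity)
      _ = _ := by ring
  have u2 : ∫ z in B, G p q l z ≤ ∫ _z in B, (K * (1 + R)) ^ 2 * ((Real.log p / p) * (Real.log q / q)) := by
    refine setIntegral_mono_on ?_ (integrable_const _) (measurable_Bx _ _ _ _) hb
    refine Measure.integrableOn_of_bounded (M := (K * (1 + R)) ^ 2 * ((Real.log p / p) * (Real.log q / q)))
      (vol_Bx _ _ _ _) (measurable_G p q l).aestronglyMeasurable ?_
    filter_upwards [ae_restrict_mem (measurable_Bx _ _ _ _)] with z hz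
    have h0 : 0 ≤ G p q l z := mul_nonneg (Av_nonneg _ hl0 _) (Av_nonneg _ hl0 _)
    rw [Real.norm_of_nonneg h0]
    exact hb z hz
  rw [setIntegral_const, smul_eq_mul] at u2
  have hpos : 0 ≤ (Real.log p / p) * (Real.log q / q) := by positivity
  unfold I
  calc _ ≤ _ := u1
    _ ≤ _ := u2
    _ ≤ _ := by
      rw [← mul_assoc, add_mul, one_mul]
      linarith

end Pool.Agent.Y122.PC
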