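import Mathlib
import Pool.Agent.H447R2.ML.Q3
import Pool.Agent.H305R2.AE2

set_option autoImplicit false

/-!
Pair correlations in a two-parameter family: comparison of the integral over a box with the integral
of the product of the window means.
-/

namespace Pool.Agent.Y122.PC

open Finset Filter Topology MeasureTheory
open Pool.Agent.H305R2 (ff ff_nonneg ff_le_one measurable_ff bounds integrableOn_ff)

/-- the mean of `ff p` over the window of length `l` that begins at `s` -/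
noncomputable def Av (p : ℕ) (l s : ℝ) : ℝ := (∫ t in Set.Ioc 0 l, ff p (s + t)) / l

/-- the product of the two indicators -/
noncomputable def F (p q : ℕ) (z : ℝ × ℝ) : ℝ := ff p (p * z.1 + z.2) * ff q (q * z.1 + z.2)

/-- the product of the two window means -/
noncomputable def G (p q : ℕ) (l : ℝ) (z : ℝ × ℝ) : ℝ :=
  Av p l (p * z.1 + z.2) * Av q l (q * z.1 + z.2)

lemma F_nonneg (p q : ℕ) (z : ℝ × ℝ) : 0 ≤ F p q z := mul_nonneg (ff_nonneg _ _) (ff_nonneg _ _)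

lemma F_le_one (p q : ℕ) (z : ℝ × ℝ) : F p q z ≤ 1 :=
  mul_le_one₀ (ff_le_one _ _) (ff_nonneg _ _) (ff_le_one _ _)

lemma measurable_F (p q : ℕ) : Measurable (F p q) :=
  ((measurable_ff p).comp (by fun_prop)).mul ((measurable_ff q).comp (by fun_prop))

lemma integrable_of_bdd {α : Type} [MeasurableSpace α] {μ : Measure α} [IsFiniteMeasure μ]
    {f : α → ℝ} (hf : Measurable f) (h0 : ∀ z, 0 ≤ f z) {C : ℝ} (h1 : ∀ z, f z ≤ C) :
    Integrable f μ := by
  refine Integrable.of_bound hf.aestronglyMeasurable C (Eventually.of_forall fun z => ?_)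
  rw [Real.norm_of_nonneg (h0 z)]
  exact h1 z

lemma shift_le {S S' : Set (ℝ × ℝ)} (hS : MeasurableSet S) (hS' : MeasurableSet S')
    (hfin : volume S' ≠ ⊤) (hfin0 : volume S ≠ ⊤) {f : ℝ × ℝ → ℝ} (hf : Measurable f)
    (h0 : ∀ z, 0 ≤ f z) (h1 : ∀ z, f z ≤ 1) (v : ℝ × ℝ) (h : ∀ z ∈ S, z + v ∈ S') :
    ∫ z in S, f (z + v) ≤ ∫ z in S', f z := by
  have hi : Integrable (S'.indicator f) volume := by
    rw [integrable_indicator_iff hS']
    have : IsFiniteMeasure (volume.restrict S') := ⟨by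
      rw [Measure.restrict_apply_univ]; exact lt_top_iff_ne_top.2 hfin⟩
    exact integrable_of_bdd hf h0 h1
  have hi2 : Integrable (fun z => S'.indicator f (z + v)) volume := hi.comp_add_right v
  have hi3 : Integrable (S.indicator (fun z => f (z + v))) volume := by
    rw [integrable_indicator_iff hS]
    have : IsFiniteMeasure (volume.restrict S) := ⟨by
      rw [Measure.restrict_apply_univ]; exact lt_top_iff_ne_top.2 hfin0⟩
    exact integrable_of_bdd (hf.comp (measurable_add_const v)) (fun z => h0 _) (fun z => h1 _)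
  rw [← integral_indicator hS, ← integral_indicator hS',
    ← integral_add_right_eq_self (μ := (volume : Measure (ℝ × ℝ))) (S'.indicator f) v]
  refine integral_mono hi3 hi2 fun z => ?_
  by_cases hz : z ∈ S
  · rw [Set.indicator_of_mem hz, Set.indicator_of_mem (h z hz)]
  · rw [Set.indicator_of_notMem hz]
    exact Set.indicator_nonneg (fun z _ => h0 z) _

/-- the shift that moves the two arguments by `w.1` and `w.2` -/
noncomputable def sh (p q : ℕ) (w : ℝ × ℝ) : ℝ × ℝ :=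
  ((w.2 - w.1) / ((q : ℝ) - p), w.1 - p * ((w.2 - w.1) / ((q : ℝ) - p)))

lemma F_shift {p q : ℕ} (hpq : p ≠ q) (z w : ℝ × ℝ) :
    F p q (z + sh p q w) = ff p (p * z.1 + z.2 + w.1) * ff q (q * z.1 + z.2 + w.2) := by
  have h : (q : ℝ) - p ≠ 0 := sub_ne_zero.2 (by exact_mod_cast hpq.symm)
  unfold F sh
  congr 2
  · simp only [Prod.fst_add, Prod.snd_add]
    ring
  · simp only [Prod.fst_add, Prod.snd_add]
    have : (q : ℝ) * ((w.2 - w.1) / ((q : ℝ) - p)) - p * ((w.2 - w.1) / ((q : ℝ) - p)) =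
        w.2 - w.1 := by
      rw [← sub_mul]
      exact mul_div_cancel₀ _ h
    linarith

lemma sh_bound {p q : ℕ} (hpq : p ≠ q) {l ξ η : ℝ} (hξ : l ≤ ξ * |(q : ℝ) - p|)
    (hη : l + p * ξ ≤ η) {w : ℝ × ℝ} (hw : w ∈ Set.Ioc 0 l ×ˢ Set.Ioc 0 l) :
    |(sh p q w).1| ≤ ξ ∧ |(sh p q w).2| ≤ η := by
  obtain ⟨⟨h1, h2⟩, h3, h4⟩ := hw
  have h : (q : ℝ) - p ≠ 0 := sub_ne_zero.2 (by exact_mod_cast hpq.symm)
  have h5 : 0 < |(q : ℝ) - p| := abs_pos.2 h
  have e1 : |(sh p q w).1| ≤ ξ := by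
    unfold sh
    simp only
    rw [abs_div, div_le_iff₀ h5]
    refine le_trans (abs_le.2 ⟨by linarith, by linarith⟩) hξ
  refine ⟨e1, ?_⟩
  have e2 : |(p : ℝ) * (sh p q w).1| ≤ p * ξ := by
    rw [abs_mul, Nat.abs_cast]
    exact mul_le_mul_of_nonneg_left e1 (Nat.cast_nonneg _)
  have e3 : (sh p q w).2 = w.1 - p * (sh p q w).1 := rfl
  rw [e3]
  refine le_trans (abs_sub _ _) ?_
  rw [abs_of_pos h1]
  linarith

lemma measurable_kernel (p q : ℕ) : Measurable (fun r : (ℝ × ℝ) × (ℝ × ℝ) =>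
    ff p (p * r.2.1 + r.2.2 + r.1.1) * ff q (q * r.2.1 + r.2.2 + r.1.2)) :=
  ((measurable_ff p).comp (by fun_prop)).mul ((measurable_ff q).comp (by fun_prop))

lemma swap {p q : ℕ} {l : ℝ} (hl : 0 < l) {S : Set (ℝ × ℝ)} (hfin : volume S ≠ ⊤) :
    ∫ w in Set.Ioc 0 l ×ˢ Set.Ioc 0 l, (∫ z in S,
      ff p (p * z.1 + z.2 + w.1) * ff q (q * z.1 + z.2 + w.2)) = l ^ 2 * ∫ z in S, G p q l z := by
  have : IsFiniteMeasure (volume.restrict S) := ⟨by
      rw [Measure.restrict_apply_univ]; exact lt_top_iff_ne_top.2 hfin⟩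
  have : IsFiniteMeasure (volume.restrict (Set.Ioc (0 : ℝ) l ×ˢ Set.Ioc (0 : ℝ) l)) := ⟨by
      rw [Measure.restrict_apply_univ, Measure.volume_eq_prod, Measure.prod_prod]
      exact ENNReal.mul_lt_top (by simp) (by simp)⟩
  rw [integral_integral_swap, ← integral_const_mul]
  · refine integral_congr_ae (Eventually.of_forall fun z => ?_)
    have h := setIntegral_prod_mul (μ := (volume : Measure ℝ)) (ν := (volume : Measure ℝ))
      (fun t => ff p (p * z.1 + z.2 + t)) (fun t => ff q (q * z.1 + z.2 + t)) (Set.Ioc 0 l) (Set.Ioc 0 l)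
    change ∫ w in Set.Ioc 0 l ×ˢ Set.Ioc 0 l, ff p (p * z.1 + z.2 + w.1) * ff q (q * z.1 + z.2 + w.2) = _
    rw [Measure.volume_eq_prod, h]
    unfold G Av
    field_simp
  · exact integrable_of_bdd (measurable_kernel p q)
      (fun r => mul_nonneg (ff_nonneg _ _) (ff_nonneg _ _))
      (C := 1) (fun r => mul_le_one₀ (ff_le_one _ _) (ff_nonneg _ _) (ff_le_one _ _))

lemma vol_sq {l : ℝ} (hl : 0 < l) :
    (volume : Measure (ℝ × ℝ)).real (Set.Ioc (0 : ℝ) l ×ˢ Set.Ioc (0 : ℝ) l) = l ^ 2 := by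
  rw [Measure.real, Measure.volume_eq_prod, Measure.prod_prod, ENNReal.toReal_mul]
  simp [hl.le]
  ring

lemma inner_int {p q : ℕ} {l : ℝ} {S : Set (ℝ × ℝ)} (hfin : volume S ≠ ⊤) :
    IntegrableOn (fun w : ℝ × ℝ => ∫ z in S,
      ff p (p * z.1 + z.2 + w.1) * ff q (q * z.1 + z.2 + w.2)) (Set.Ioc (0 : ℝ) l ×ˢ Set.Ioc (0 : ℝ) l)
      volume := by
  have : IsFiniteMeasure (volume.restrict S) := ⟨by
      rw [Measure.restrict_apply_univ]; exact lt_top_iff_ne_top.2 hfin⟩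
  have : IsFiniteMeasure (volume.restrict (Set.Ioc (0 : ℝ) l ×ˢ Set.Ioc (0 : ℝ) l)) := ⟨by
      rw [Measure.restrict_apply_univ, Measure.volume_eq_prod, Measure.prod_prod]
      exact ENNReal.mul_lt_top (by simp) (by simp)⟩
  have h := (integrable_of_bdd (μ := (volume.restrict (Set.Ioc (0 : ℝ) l ×ˢ Set.Ioc (0 : ℝ) l)).prod
    (volume.restrict S)) (measurable_kernel p q)
      (fun r => mul_nonneg (ff_nonneg _ _) (ff_nonneg _ _))
      (C := 1) (fun r => mul_le_one₀ (ff_le_one _ _) (ff_nonneg _ _) (ff_le_one _ _)))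
  exact h.integral_prod_left

/-- upper comparison -/
lemma G_le {p q : ℕ} (hpq : p ≠ q) {l ξ η : ℝ} (hl : 0 < l) (hξ : l ≤ ξ * |(q : ℝ) - p|)
    (hη : l + p * ξ ≤ η) {S S' : Set (ℝ × ℝ)} (hS : MeasurableSet S) (hS' : MeasurableSet S')
    (hfin' : volume S' ≠ ⊤) (hfin : volume S ≠ ⊤)
    (h : ∀ z ∈ S, ∀ v : ℝ × ℝ, |v.1| ≤ ξ → |v.2| ≤ η → z + v ∈ S') :
    ∫ z in S, G p q l z ≤ ∫ z in S', F p q z := by
  have h1 := swap (p := p) (q := q) hl hfin
  have hq : MeasurableSet (Set.Ioc (0 : ℝ) l ×ˢ Set.Ioc (0 : ℝ) l) :=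
    measurableSet_Ioc.prod measurableSet_Ioc
  have hvol : volume (Set.Ioc (0 : ℝ) l ×ˢ Set.Ioc (0 : ℝ) l) ≠ ⊤ := by
    rw [Measure.volume_eq_prod, Measure.prod_prod]
    exact (ENNReal.mul_lt_top (by simp) (by simp)).ne
  have h2 : ∫ w in Set.Ioc 0 l ×ˢ Set.Ioc 0 l, (∫ z in S,
      ff p (p * z.1 + z.2 + w.1) * ff q (q * z.1 + z.2 + w.2)) ≤
      ∫ _w in Set.Ioc (0 : ℝ) l ×ˢ Set.Ioc (0 : ℝ) l, (∫ z in S', F p q z) := by
    refine setIntegral_mono_on (inner_int hfin) ((integrableOn_const (C := ∫ z in S', F p q z) hvol)) hq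
      fun w hw => ?_
    obtain ⟨b1, b2⟩ := sh_bound hpq hξ hη hw
    have h3 := shift_le hS hS' hfin' hfin (measurable_F p q) (F_nonneg p q) (F_le_one p q)
      (sh p q w) (fun z hz => h z hz _ b1 b2)
    simpa only [F_shift hpq] using h3
  rw [h1, setIntegral_const, vol_sq hl, smul_eq_mul] at h2
  exact le_of_mul_le_mul_left h2 (by positivity)

/-- lower comparison -/
lemma F_le {p q : ℕ} (hpq : p ≠ q) {l ξ η : ℝ} (hl : 0 < l) (hξ : l ≤ ξ * |(q : ℝ) - p|)
    (hη : l + p * ξ ≤ η) {S S' : Set (ℝ × ℝ)} (hS : MeasurableSet S) (hS' : MeasurableSet S')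
    (hfin' : volume S' ≠ ⊤) (hfin : volume S ≠ ⊤)
    (h : ∀ z ∈ S, ∀ v : ℝ × ℝ, |v.1| ≤ ξ → |v.2| ≤ η → z + v ∈ S') :
    ∫ z in S, F p q z ≤ ∫ z in S', G p q l z := by
  have h1 := swap (p := p) (q := q) hl hfin'
  have hq : MeasurableSet (Set.Ioc (0 : ℝ) l ×ˢ Set.Ioc (0 : ℝ) l) :=
    measurableSet_Ioc.prod measurableSet_Ioc
  have hvol : volume (Set.Ioc (0 : ℝ) l ×ˢ Set.Ioc (0 : ℝ) l) ≠ ⊤ := by
    rw [Measure.volume_eq_prod, Measure.prod_prod]
    exact (ENNReal.mul_lt_top (by simp) (by simp)).ne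
  have h2 : ∫ _w in Set.Ioc (0 : ℝ) l ×ˢ Set.Ioc (0 : ℝ) l, (∫ z in S, F p q z) ≤
      ∫ w in Set.Ioc 0 l ×ˢ Set.Ioc 0 l, (∫ z in S',
      ff p (p * z.1 + z.2 + w.1) * ff q (q * z.1 + z.2 + w.2)) := by
    refine setIntegral_mono_on ((integrableOn_const (C := ∫ z in S, F p q z) hvol)) (inner_int hfin') hq
      fun w hw => ?_
    obtain ⟨b1, b2⟩ := sh_bound hpq hξ hη hw
    have h3 := shift_le hS hS' hfin' hfin (f := fun z => F p q (z + sh p q w))
      ((measurable_F p q).comp (measurable_add_const _)) (fun z => F_nonneg p q _)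
      (fun z => F_le_one p q _) (-(sh p q w)) (fun z hz => h z hz _ (by simpa using b1) (by simpa using b2))
    simp only [neg_add_cancel_right] at h3
    simpa only [F_shift hpq] using h3
  rw [h1, setIntegral_const, vol_sq hl, smul_eq_mul] at h2
  exact le_of_mul_le_mul_left h2 (by positivity)

end Pool.Agent.Y122.PC
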