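import Pool.Agent.Y122.PC.Asym

set_option autoImplicit false

/-!
Summation over the pairs of levels.
-/

namespace Pool.Agent.Y122.PC

open Finset Filter Topology MeasureTheory
open Pool.Agent.H305R2 (ff ff_nonneg ff_le_one measurable_ff bounds integrableOn_ff pr pr_nonneg)
open Pool.Agent.H447R2.ML (RL RL_tendsto RL_nonneg)

/-- the weight of a level -/
noncomputable def w (p : ℕ) : ℝ := Real.log p / p

lemma w_nonneg (p : ℕ) : 0 ≤ w p := div_nonneg (Real.log_natCast_nonneg p) (Nat.cast_nonneg p)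

/-- the primes `p` with `u < p ≤ v` -/
noncomputable def Pr (u v : ℝ) : Finset ℕ := (Finset.Ioc ⌊u⌋₊ ⌊v⌋₊).filter Nat.Prime

lemma mem_Pr {u v : ℝ} (hu : 0 ≤ u) (hv : 0 ≤ v) {p : ℕ} :
    p ∈ Pr u v ↔ p.Prime ∧ u < p ∧ (p : ℝ) ≤ v := by
  unfold Pr
  rw [Finset.mem_filter, Finset.mem_Ioc, Nat.floor_lt hu, Nat.le_floor_iff hv]
  tauto

/-- **Mertens** -/
lemma mertens {a b : ℝ} (ha : 0 < a) (hab : a < b) :
    Tendsto (fun z : ℝ => ∑ p ∈ Pr (a * z) (b * z), w p) atTop (𝓝 (Real.log (b / a))) := by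
  have hb : 0 < b := ha.trans hab
  set l := Real.log (b / a) with hl
  have hl0 : 0 < l := Real.log_pos ((one_lt_div ha).2 hab)
  have hel : Real.exp l = b / a := Real.exp_log (by positivity)
  have haz : Tendsto (fun z : ℝ => a * z) atTop atTop := tendsto_id.const_mul_atTop ha
  have h1 : Tendsto (fun z : ℝ => RL l (a * z) * Real.log (a * z)) atTop (𝓝 l) :=
    (RL_tendsto hl0).comp haz
  have h0 : Tendsto (fun z : ℝ => RL l (a * z)) atTop (𝓝 0) := by
    have h2 : Tendsto (fun z : ℝ => (Real.log (a * z))⁻¹) atTop (𝓝 0) :=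
      (Real.tendsto_log_atTop.comp haz).inv_tendsto_atTop
    have h3 := h1.mul h2
    rw [mul_zero] at h3
    refine h3.congr' ?_
    filter_upwards [(Real.tendsto_log_atTop.comp haz).eventually_gt_atTop 0] with z hz
    have hz' : 0 < Real.log (a * z) := hz
    field_simp
  have h4 : Tendsto (fun z : ℝ => RL l (a * z) * Real.log (a * z) + l * RL l (a * z)) atTop (𝓝 l) := by
    have := h1.add (h0.const_mul l)
    simpa using this
  have key : ∀ᶠ z : ℝ in atTop, RL l (a * z) * Real.log (a * z) ≤ ∑ p ∈ Pr (a * z) (b * z), w p ∧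
      ∑ p ∈ Pr (a * z) (b * z), w p ≤ RL l (a * z) * Real.log (a * z) + l * RL l (a * z) := by
    filter_upwards [eventually_gt_atTop 0] with z hz
    have haz0 : 0 < a * z := by positivity
    have hbz0 : 0 < b * z := by positivity
    have e1 : Real.exp l * (a * z) = b * z := by rw [hel]; field_simp
    have e2 : RL l (a * z) = ∑ p ∈ Pr (a * z) (b * z), (p : ℝ)⁻¹ := by
      unfold RL Pr
      rw [e1, Finset.sum_filter]
      refine Finset.sum_congr rfl fun k _ => ?_
      unfold pr
      split_ifs <;> simp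
    rw [e2, Finset.sum_mul, Finset.mul_sum, ← Finset.sum_add_distrib]
    constructor
    · refine Finset.sum_le_sum fun p hp => ?_
      obtain ⟨_, h5, _⟩ := (mem_Pr haz0.le hbz0.le).1 hp
      have hp0 : (0 : ℝ) < p := haz0.trans h5
      unfold w
      rw [div_eq_inv_mul]
      exact mul_le_mul_of_nonneg_left (Real.log_le_log haz0 h5.le) (by positivity)
    · refine Finset.sum_le_sum fun p hp => ?_
      obtain ⟨_, h5, h6⟩ := (mem_Pr haz0.le hbz0.le).1 hp
      have hp0 : (0 : ℝ) < p := haz0.trans h5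
      unfold w
      rw [div_eq_inv_mul, mul_comm l, ← mul_add]
      refine mul_le_mul_of_nonneg_left ?_ (by positivity)
      have h7 : Real.log p ≤ Real.log (b * z) := Real.log_le_log hp0 h6
      rw [← e1, Real.log_mul (Real.exp_pos _).ne' haz0.ne', Real.log_exp] at h7
      linarith
  exact tendsto_of_tendsto_of_tendsto_of_le_of_le' h1 h4 (key.mono fun z h => h.1)
    (key.mono fun z h => h.2)

/-- **The sum of the correlations.** -/
theorem sum_pairs {x0 x1 y0 y1 : ℝ} (hx0 : 0 < x0) (hx : x0 < x1) (hy : y0 < y1) {a b c d : ℝ}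
    (ha : 0 < a) (hab : a < b) (hc : 0 < c) (hcd : c < d) :
    Tendsto (fun z : ℝ => ∑ p ∈ Pr (a * z) (b * z), ∑ q ∈ Pr (c * z) (d * z),
      if p ≠ q then I x0 x1 y0 y1 p q else 0) atTop
      (𝓝 (T x0 x1 y0 y1 * (Real.log (b / a) * Real.log (d / c)))) := by
  have hb : 0 < b := ha.trans hab
  have hd : 0 < d := hc.trans hcd
  have m1 := mertens ha hab
  have m2 := mertens hc hcd
  set l1 := Real.log (b / a) with hl1
  set l2 := Real.log (d / c) with hl2
  have hl1' : 0 < l1 := Real.log_pos ((one_lt_div ha).2 hab)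
  have hl2' : 0 < l2 := Real.log_pos ((one_lt_div hc).2 hcd)
  set T0 := T x0 x1 y0 y1 with hT0
  have hTpos : 0 ≤ T0 := by
    rw [hT0, ← int_T hx0 hx.le hy.le]
    exact integral_nonneg fun z => mul_self_nonneg _
  have hmain : Tendsto (fun z : ℝ => T0 * ((∑ p ∈ Pr (a * z) (b * z), w p) *
      ∑ q ∈ Pr (c * z) (d * z), w q)) atTop (𝓝 (T0 * (l1 * l2))) := (m1.mul m2).const_mul T0
  have hdiff : Tendsto (fun z : ℝ => (∑ p ∈ Pr (a * z) (b * z), ∑ q ∈ Pr (c * z) (d * z),
      if p ≠ q then I x0 x1 y0 y1 p q else 0) - T0 * ((∑ p ∈ Pr (a * z) (b * z), w p) *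
      ∑ q ∈ Pr (c * z) (d * z), w q)) atTop (𝓝 0) := by
    rw [Metric.tendsto_nhds]
    intro ε' hε'
    simp only [Real.dist_eq, sub_zero]
    obtain ⟨K, hK, N1, hN1⟩ := near x1 y0 y1 hx0 (R := 1 + d / a + b / c) (by positivity)
    -- the parameters
    set κ := ε' / (4 * ((K + T0) * (l1 + 1))) with hκ
    have hκ0 : 0 < κ := by positivity
    set ε := ε' / (4 * ((l1 + 1) * (l2 + 1))) with hε
    have hε0 : 0 < ε := by positivity
    set r := Real.exp (κ / 4) with hr
    have hr1 : 1 < r := by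
      have := Real.add_one_lt_exp (show κ / 4 ≠ 0 by positivity)
      rw [hr]; linarith [show 0 < κ / 4 by positivity]
    have hr0 : 0 < r := by linarith
    set δ := (r - 1) / (r + 1) with hδ
    have hδ0 : 0 < δ := div_pos (by linarith) (by linarith)
    obtain ⟨N2, hN2⟩ := far hx0 hx hy hε0 hδ0
    have hw : ∀ᶠ z : ℝ in atTop, ∑ q ∈ Pr (1 / r * z) (r * z), w q < κ := by
      have h := mertens (a := 1 / r) (b := r) (by positivity) (by
        rw [div_lt_iff₀ hr0]; nlinarith)
      have e : Real.log (r / (1 / r)) = κ / 2 := by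
        rw [div_div_eq_mul_div, div_one, Real.log_mul hr0.ne' hr0.ne', hr, Real.log_exp]; ring
      rw [e] at h
      exact h.eventually_lt_const (by linarith)
    obtain ⟨Z, hZ⟩ := eventually_atTop.1 hw
    have hlarge : ∀ t : ℝ, 0 < t → ∀ B : ℝ, ∀ᶠ z : ℝ in atTop, B < t * z := fun t ht B =>
      (tendsto_id.const_mul_atTop ht).eventually_gt_atTop B
    filter_upwards [m1.eventually_lt_const (show l1 < l1 + 1 by linarith),
      m2.eventually_lt_const (show l2 < l2 + 1 by linarith),
      hlarge a ha (max (max N1 N2) Z), hlarge c hc (max (max N1 N2) Z), hlarge a ha 3, hlarge c hc 3,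
      eventually_gt_atTop 0] with z s1 s2 g1 g2 g3 g4 hz
    set P := Pr (a * z) (b * z) with hP
    set Q := Pr (c * z) (d * z) with hQ
    have haz : 0 ≤ a * z := by positivity
    have hbz : 0 ≤ b * z := by positivity
    have hcz : 0 ≤ c * z := by positivity
    have hdz : 0 ≤ d * z := by positivity
    have hPp : ∀ p ∈ P, (3 : ℝ) < p ∧ N1 ≤ p ∧ N2 ≤ p ∧ Z ≤ p ∧ a * z < p ∧ (p : ℝ) ≤ b * z := by
      intro p hp
      obtain ⟨_, h2, h3⟩ := (mem_Pr haz hbz).1 hp
      have h4 : (max (max N1 N2) Z : ℝ) < p := g1.trans h2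
      have h5 : (N1 : ℝ) < p := ((le_max_left _ _).trans (le_max_left _ _)).trans_lt h4
      have h6 : (N2 : ℝ) < p := ((le_max_right _ _).trans (le_max_left _ _)).trans_lt h4
      exact ⟨g3.trans h2, by exact_mod_cast h5.le, by exact_mod_cast h6.le,
        ((le_max_right _ _).trans_lt h4).le, h2, h3⟩
    have hQp : ∀ q ∈ Q, (3 : ℝ) < q ∧ N1 ≤ q ∧ N2 ≤ q ∧ c * z < q ∧ (q : ℝ) ≤ d * z := by
      intro p hp
      obtain ⟨_, h2, h3⟩ := (mem_Pr hcz hdz).1 hp
      have h4 : (max (max N1 N2) Z : ℝ) < p := g2.trans h2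
      have h5 : (N1 : ℝ) < p := ((le_max_left _ _).trans (le_max_left _ _)).trans_lt h4
      have h6 : (N2 : ℝ) < p := ((le_max_right _ _).trans (le_max_left _ _)).trans_lt h4
      exact ⟨g4.trans h2, by exact_mod_cast h5.le, by exact_mod_cast h6.le, h2, h3⟩
    have hterm : ∀ p ∈ P, ∀ q ∈ Q, |(if p ≠ q then I x0 x1 y0 y1 p q else 0) - T0 * (w p * w q)| ≤
        ε * (w p * w q) + if |(q : ℝ) - p| < δ * ((p : ℝ) + q) then (K + T0) * (w p * w q) else 0 := by
      intro p hp q hq
      obtain ⟨p3, pN1, pN2, pZ, pa, pb⟩ := hPp p hp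
      obtain ⟨q3, qN1, qN2, qc, qd⟩ := hQp q hq
      have hlp : 0 < Real.log p := Real.log_pos (by linarith)
      have hlq : 0 < Real.log q := Real.log_pos (by linarith)
      have hwp : 0 < w p := by unfold w; positivity
      have hwq : 0 < w q := by unfold w; positivity
      have hww : 0 < w p * w q := mul_pos hwp hwq
      have m1 : 0 ≤ K * (w p * w q) := by positivity
      have m2 : 0 ≤ T0 * (w p * w q) := by positivity
      have m3 : 0 ≤ ε * (w p * w q) := by positivity
      have m4 : (K + T0) * (w p * w q) = K * (w p * w q) + T0 * (w p * w q) := add_mul _ _ _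
      by_cases hn : |(q : ℝ) - p| < δ * ((p : ℝ) + q)
      · rw [if_pos hn]
        by_cases hpq : p ≠ q
        · rw [if_pos hpq]
          have h1 := hN1 p q pN1 qN1 hpq (by
            have : (q : ℝ) ≤ d / a * p := by
              rw [div_mul_eq_mul_div, le_div_iff₀ ha]
              nlinarith
            have : 0 ≤ b / c * p := by positivity
            nlinarith) (by
            have : (p : ℝ) ≤ b / c * q := by
              rw [div_mul_eq_mul_div, le_div_iff₀ hc]
              nlinarith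
            have : 0 ≤ d / a * q := by positivity
            nlinarith)
          change I x0 x1 y0 y1 p q ≤ K * (w p * w q) at h1
          have h2 := I_nonneg x0 x1 y0 y1 p q
          rw [abs_le]
          constructor <;> linarith
        · rw [if_neg hpq, zero_sub, abs_neg, abs_of_nonneg m2]
          linarith
      · rw [if_neg hn, add_zero]
        have hh : δ * ((p : ℝ) + q) ≤ |(q : ℝ) - p| := not_lt.1 hn
        have hpq : p ≠ q := by
          rintro rfl
          have : 0 < δ * ((p : ℝ) + p) := by positivity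
          simp at hh
          linarith
        rw [if_pos hpq]
        have h1 := hN2 p q pN2 qN2 hh
        have e : ((p : ℝ) / Real.log p) * (q / Real.log q) = (w p * w q)⁻¹ := by
          unfold w
          field_simp
        rw [e] at h1
        have h3 : |I x0 x1 y0 y1 p q - T0 * (w p * w q)| =
            |I x0 x1 y0 y1 p q * (w p * w q)⁻¹ - T0| * (w p * w q) := by
          rw [← abs_of_pos hww, ← abs_mul, abs_of_pos hww, sub_mul, inv_mul_cancel_right₀ hww.ne']
        rw [h3]
        exact mul_le_mul_of_nonneg_right h1 hww.le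
    have hnear : ∀ p ∈ P, (∑ q ∈ Q, if |(q : ℝ) - p| < δ * ((p : ℝ) + q) then w q else 0) ≤ κ := by
      intro p hp
      obtain ⟨p3, _, _, pZ, _, _⟩ := hPp p hp
      have hp0 : (0 : ℝ) < p := by linarith
      refine le_trans ?_ (hZ p pZ).le
      rw [← Finset.sum_filter]
      refine Finset.sum_le_sum_of_subset_of_nonneg ?_ fun q _ _ => w_nonneg q
      intro q hq
      obtain ⟨h1, h2⟩ := Finset.mem_filter.1 hq
      have hq0 : (0 : ℝ) < q := by linarith [(hQp q h1).1]
      rw [mem_Pr (by positivity) (by positivity)]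
      refine ⟨((mem_Pr hcz hdz).1 h1).1, ?_, ?_⟩
      · rw [div_mul_eq_mul_div, one_mul, div_lt_iff₀ hr0]
        have h3 := (abs_lt.1 h2).1
        rw [hδ, div_mul_eq_mul_div, ← neg_div, div_lt_iff₀ (by linarith)] at h3
        nlinarith
      · have h3 := (abs_lt.1 h2).2
        rw [hδ, div_mul_eq_mul_div, lt_div_iff₀ (by linarith)] at h3
        nlinarith
    have hS1 : 0 ≤ ∑ p ∈ P, w p := Finset.sum_nonneg fun p _ => w_nonneg p
    have hS2 : 0 ≤ ∑ q ∈ Q, w q := Finset.sum_nonneg fun p _ => w_nonneg p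
    have hfin : |(∑ p ∈ P, ∑ q ∈ Q, if p ≠ q then I x0 x1 y0 y1 p q else 0) -
        T0 * ((∑ p ∈ P, w p) * ∑ q ∈ Q, w q)| ≤
        ε * ((∑ p ∈ P, w p) * ∑ q ∈ Q, w q) + (K + T0) * ((∑ p ∈ P, w p) * κ) := by
      have e1 : (∑ p ∈ P, ∑ q ∈ Q, if p ≠ q then I x0 x1 y0 y1 p q else 0) -
        T0 * ((∑ p ∈ P, w p) * ∑ q ∈ Q, w q) =
        ∑ p ∈ P, ∑ q ∈ Q, ((if p ≠ q then I x0 x1 y0 y1 p q else 0) - T0 * (w p * w q)) := by
        rw [Finset.sum_mul_sum, Finset.mul_sum, ← Finset.sum_sub_distrib]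
        refine Finset.sum_congr rfl fun p _ => ?_
        rw [Finset.mul_sum, ← Finset.sum_sub_distrib]
      rw [e1]
      calc _ ≤ ∑ p ∈ P, ∑ q ∈ Q, |(if p ≠ q then I x0 x1 y0 y1 p q else 0) - T0 * (w p * w q)| :=
            (Finset.abs_sum_le_sum_abs _ _).trans
              (Finset.sum_le_sum fun p _ => Finset.abs_sum_le_sum_abs _ _)
        _ ≤ ∑ p ∈ P, ∑ q ∈ Q, (ε * (w p * w q) +
            if |(q : ℝ) - p| < δ * ((p : ℝ) + q) then (K + T0) * (w p * w q) else 0) :=
            Finset.sum_le_sum fun p hp => Finset.sum_le_sum fun q hq => hterm p hp q hq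
        _ = ε * ((∑ p ∈ P, w p) * ∑ q ∈ Q, w q) + ∑ p ∈ P, (K + T0) * w p *
            (∑ q ∈ Q, if |(q : ℝ) - p| < δ * ((p : ℝ) + q) then w q else 0) := by
            rw [Finset.sum_mul_sum, Finset.mul_sum, ← Finset.sum_add_distrib]
            refine Finset.sum_congr rfl fun p _ => ?_
            rw [Finset.mul_sum, Finset.mul_sum, ← Finset.sum_add_distrib]
            refine Finset.sum_congr rfl fun q _ => ?_
            split_ifs <;> ring
        _ ≤ ε * ((∑ p ∈ P, w p) * ∑ q ∈ Q, w q) + ∑ p ∈ P, (K + T0) * w p * κ := by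
            gcongr with p hp
            · exact mul_nonneg (by linarith) (w_nonneg p)
            · exact hnear p hp
        _ = _ := by
            congr 1
            rw [Finset.sum_mul, Finset.mul_sum]
            exact Finset.sum_congr rfl fun p _ => by ring
    have f1 : ε * ((∑ p ∈ P, w p) * ∑ q ∈ Q, w q) ≤ ε * ((l1 + 1) * (l2 + 1)) := by gcongr
    have f2 : (K + T0) * ((∑ p ∈ P, w p) * κ) ≤ (K + T0) * ((l1 + 1) * κ) := by gcongr
    have f3 : ε * ((l1 + 1) * (l2 + 1)) = ε' / 4 := by rw [hε]; field_simp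
    have f4 : (K + T0) * ((l1 + 1) * κ) = ε' / 4 := by rw [hκ]; field_simp
    linarith
  have := hdiff.add hmain
  rw [zero_add] at this
  exact this.congr fun z => by ring

end Pool.Agent.Y122.PC
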